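import Pool.Agent.COV.StmtsC

set_option autoImplicit false

/-!
# Squad COV (MP_160b6c_nt), row CVS (helper66): from the quintic model to the sextic
-/

namespace Pool.Agent.COV.H66

open Polynomial Pool.Agent.COV

section
variable {k : Type} [Field k]

theorem sext_lt (a : Fin 7 → k) : (TTC.sext a).natDegree < 7 := by
  have h : (TTC.sext a).natDegree ≤ 6 := by
    unfold TTC.sext
    compute_degree
  omega

theorem om_deg (a : Fin 7 → k) (α : k) : (TTC.om a α).natDegree = 5 := by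
  unfold TTC.om
  compute_degree!

theorem om_spec (a : Fin 7 → k) (α : k) (hα : (TTC.sext a).eval α = 0) (x : k) (hx : x ≠ 0) :
    (TTC.sext a).eval (α + a 0 ^ 4 * (derivative (TTC.sext a)).eval α / x) * x ^ 6 =
      (a 0 ^ 2 * (derivative (TTC.sext a)).eval α) ^ 2 * (TTC.om a α).eval x := by
  have h0 : (taylor α (TTC.sext a)).coeff 0 = 0 := by rw [taylor_coeff_zero, hα]
  have h1 : (derivative (TTC.sext a)).eval α = (taylor α (TTC.sext a)).coeff 1 := by
    rw [taylor_coeff_one]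
  have h2 : ∀ u : k, (TTC.sext a).eval (α + u) =
      ∑ j ∈ Finset.range 7, (taylor α (TTC.sext a)).coeff j * u ^ j := by
    intro u
    have h3 : (taylor α (TTC.sext a)).eval u = (TTC.sext a).eval (u + α) := by
      rw [taylor_eval]
    rw [add_comm α u, ← h3]
    exact eval_eq_sum_range' (by rw [natDegree_taylor]; exact sext_lt a) u
  rw [h2, h1]
  simp only [Finset.sum_range_succ, Finset.sum_range_zero, h0, TTC.om, eval_add, eval_mul,
    eval_pow, eval_X, eval_C]
  field_simp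
  ring

/-- `(x - α)^N G(e/(x - α))` -/
noncomputable def H (e α : k) (N : ℕ) (G : k[X]) : k[X] :=
  ∑ i ∈ Finset.range (N + 1), C (G.coeff i * e ^ i) * (X - C α) ^ (N - i)

theorem H_eval (e α : k) {N : ℕ} {G : k[X]} (hG : G.natDegree ≤ N) (x : k) (hx : x ≠ α) :
    (H e α N G).eval x = (x - α) ^ N * G.eval (e / (x - α)) := by
  have hy : x - α ≠ 0 := sub_ne_zero.2 hx
  rw [eval_eq_sum_range' (Nat.lt_succ_of_le hG) (e / (x - α))]
  unfold H
  rw [eval_finsetSum, Finset.mul_sum]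
  refine Finset.sum_congr rfl fun i hi => ?_
  have hi' : i ≤ N := Nat.lt_succ_iff.1 (Finset.mem_range.1 hi)
  rw [eval_mul, eval_C, eval_pow, eval_sub, eval_X, eval_C, div_pow, pow_sub₀ _ hy hi']
  ring

theorem H_deg (e α : k) (N : ℕ) (G : k[X]) : (H e α N G).natDegree ≤ N := by
  unfold H
  refine natDegree_sum_le_of_forall_le _ _ fun i _ => ?_
  refine (natDegree_C_mul_le _ _).trans ((natDegree_pow_le).trans ?_)
  rw [natDegree_X_sub_C, mul_one]
  exact Nat.sub_le N i

theorem t_der {N : ℕ} {G : k[X]} (hG : G.natDegree ≤ N) (t : k) :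
    t * (derivative G).eval t = ∑ i ∈ Finset.range (N + 1), G.coeff i * (i : k) * t ^ i := by
  conv_lhs => rw [G.as_sum_range' (N + 1) (Nat.lt_succ_of_le hG)]
  rw [derivative_sum, eval_finsetSum, Finset.mul_sum]
  refine Finset.sum_congr rfl fun i _ => ?_
  rw [derivative_monomial, eval_monomial]
  rcases Nat.eq_zero_or_pos i with h | h
  · rw [h]
    simp
  · obtain ⟨m, rfl⟩ : ∃ m, i = m + 1 := ⟨i - 1, by omega⟩
    rw [Nat.add_sub_cancel, pow_succ]
    ring

theorem H_der (e α : k) {N : ℕ} {G : k[X]} (hG : G.natDegree ≤ N) (x : k) (hx : x ≠ α) :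
    (x - α) * (derivative (H e α N G)).eval x = (x - α) ^ N *
      ((N : k) * G.eval (e / (x - α)) - e / (x - α) * (derivative G).eval (e / (x - α))) := by
  have hy : x - α ≠ 0 := sub_ne_zero.2 hx
  rw [t_der hG, eval_eq_sum_range' (Nat.lt_succ_of_le hG) (e / (x - α)), Finset.mul_sum,
    ← Finset.sum_sub_distrib, Finset.mul_sum]
  unfold H
  rw [derivative_sum, eval_finsetSum, Finset.mul_sum]
  refine Finset.sum_congr rfl fun i hi => ?_
  have hi' : i ≤ N := Nat.lt_succ_iff.1 (Finset.mem_range.1 hi)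
  rw [derivative_C_mul, derivative_X_sub_C_pow, eval_mul, eval_C, eval_mul, eval_C,
    eval_pow, eval_sub, eval_X, eval_C, Nat.cast_sub hi', div_pow]
  rcases Nat.eq_or_lt_of_le hi' with h | h
  · rw [h, sub_self]
    ring
  · obtain ⟨m, hm⟩ : ∃ m, N = i + (m + 1) := ⟨N - i - 1, by omega⟩
    have e1 : N - i - 1 = m := by omega
    have e2 : (x - α) ^ N = (x - α) ^ i * ((x - α) ^ m * (x - α)) := by
      rw [hm, pow_add, pow_succ]
    rw [e1, e2]
    have hyi : (x - α) ^ i ≠ 0 := pow_ne_zero _ hy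
    field_simp

theorem wr_eval (e α : k) {N : ℕ} {P Q : k[X]} (hP : P.natDegree ≤ N) (hQ : Q.natDegree ≤ N)
    (x : k) (hx : x ≠ α) : (x - α) * (wr (H e α N P) (H e α N Q)).eval x =
      -(e / (x - α)) * (x - α) ^ (2 * N) * (wr P Q).eval (e / (x - α)) := by
  have h1 := H_der e α hP x hx
  have h2 := H_der e α hQ x hx
  have h3 := H_eval e α hP x hx
  have h4 := H_eval e α hQ x hx
  unfold wr
  rw [eval_sub, eval_mul, eval_mul, eval_sub, eval_mul, eval_mul, h3, h4, mul_sub, ← mul_assoc,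
    h1, mul_left_comm (x - α), h2, two_mul, pow_add]
  ring

/-- **CVS** -/
theorem cvs : CvsStmt := by
  intro k _ _ n a α ha0 hα hd ⟨j, P, Q, V, hj0, hj1, hP, hQ, hwr, hF⟩
  obtain ⟨F, hFd⟩ : ∃ F, F = TTC.sext a := ⟨_, rfl⟩
  obtain ⟨f, hfd⟩ : ∃ f, f = TTC.om a α := ⟨_, rfl⟩
  have hf5 : f.natDegree = 5 := by rw [hfd]; exact om_deg a α
  have hf0 : f ≠ 0 := by
    intro h
    rw [h, natDegree_zero] at hf5
    omega
  obtain ⟨e, he⟩ : ∃ e, e = a 0 ^ 4 * (derivative (TTC.sext a)).eval α := ⟨_, rfl⟩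
  obtain ⟨κ, hκ⟩ : ∃ κ, κ = a 0 ^ 2 * (derivative (TTC.sext a)).eval α := ⟨_, rfl⟩
  have he0 : e ≠ 0 := by
    rw [he]
    exact mul_ne_zero (pow_ne_zero _ ha0) hd
  have hκ0 : κ ≠ 0 := by
    rw [hκ]
    exact mul_ne_zero (pow_ne_zero _ ha0) hd
  have spec : ∀ t : k, t ≠ 0 → F.eval (α + e / t) * t ^ 6 = κ ^ 2 * f.eval t := by
    intro t ht
    rw [hFd, he, hκ, hfd]
    exact om_spec a α hα t ht
  rw [← hfd] at hF
  -- the factors are not zero
  have hP0 : P ≠ 0 := by
    rintro rfl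
    apply hwr
    unfold wr
    rw [derivative_zero, zero_mul, zero_mul, sub_zero]
  have hQ0 : Q ≠ 0 := by
    rintro rfl
    apply hwr
    unfold wr
    rw [derivative_zero, mul_zero, mul_zero, sub_zero]
  have hcQ : ∀ c : k, P - C c * Q ≠ 0 := by
    intro c h
    apply hwr
    rw [sub_eq_zero.1 h]
    unfold wr
    rw [derivative_C_mul]
    ring
  have hPQ : P - Q ≠ 0 := by
    have := hcQ 1
    rw [C_1, one_mul] at this
    exact this
  have hR0 : P * Q * (P - Q) * (P - C j * Q) ≠ 0 :=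
    mul_ne_zero (mul_ne_zero (mul_ne_zero hP0 hQ0) hPQ) (hcQ j)
  have hV0 : V ≠ 0 := by
    rintro rfl
    rw [zero_pow two_ne_zero, mul_zero] at hF
    exact hR0 hF.symm
  have hdeg : 5 + 2 * V.natDegree ≤ 4 * n := by
    have h1 : (f * V ^ 2).natDegree = 5 + 2 * V.natDegree := by
      rw [natDegree_mul hf0 (pow_ne_zero _ hV0), natDegree_pow, hf5]
    rw [← h1, hF]
    have h2 : (P - Q).natDegree ≤ n := (natDegree_sub_le _ _).trans (max_le hP hQ)
    have h3 : (P - C j * Q).natDegree ≤ n :=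
      (natDegree_sub_le _ _).trans (max_le hP ((natDegree_C_mul_le _ _).trans hQ))
    have h4 := natDegree_mul_le (p := P * Q * (P - Q)) (q := P - C j * Q)
    have h5 := natDegree_mul_le (p := P * Q) (q := P - Q)
    have h6 := natDegree_mul_le (p := P) (q := Q)
    omega
  have hn : 2 ≤ n := by omega
  have hVd : V.natDegree ≤ 2 * n - 3 := by omega
  have hinf : Set.Infinite {x : k | x ≠ α} := (Set.finite_singleton α).infinite_compl
  refine ⟨j, H e α n P, H e α n Q, C (e ^ 3 / κ) * H e α (2 * n - 3) V, hj0, hj1, H_deg e α n P,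
    H_deg e α n Q, ?_, ?_⟩
  · intro h0
    apply hwr
    have hinf0 : Set.Infinite {t : k | t ≠ 0} := (Set.finite_singleton (0 : k)).infinite_compl
    refine eq_of_infinite_eval_eq _ _ (hinf0.mono fun t ht => ?_)
    have ht0 : t ≠ 0 := ht
    have hx : α + e / t ≠ α := by
      intro h
      rw [add_eq_left] at h
      exact div_ne_zero he0 ht0 h
    have h1 := wr_eval e α hP hQ (α + e / t) hx
    rw [h0, eval_zero, mul_zero, add_sub_cancel_left, div_div_cancel₀ he0] at h1
    have h2 : -t * (e / t) ^ (2 * n) ≠ 0 :=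
      mul_ne_zero (neg_ne_zero.2 ht0) (pow_ne_zero _ (div_ne_zero he0 ht0))
    show (wr P Q).eval t = (0 : k[X]).eval t
    rw [eval_zero]
    exact (mul_eq_zero.1 h1.symm).resolve_left h2
  · rw [← hFd]
    refine eq_of_infinite_eval_eq _ _ (hinf.mono fun x hx => ?_)
    have hxα : x ≠ α := hx
    have hy : x - α ≠ 0 := sub_ne_zero.2 hxα
    have ht0 : e / (x - α) ≠ 0 := div_ne_zero he0 hy
    have h1 := spec (e / (x - α)) ht0
    rw [div_div_cancel₀ he0, add_sub_cancel] at h1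
    have h2 := congrArg (eval (e / (x - α))) hF
    simp only [eval_mul, eval_pow, eval_sub, eval_C] at h2
    show eval x _ = eval x _
    simp only [eval_mul, eval_pow, eval_sub, eval_C]
    rw [H_eval e α hP x hxα, H_eval e α hQ x hxα, H_eval e α hVd x hxα]
    obtain ⟨m, hm⟩ : ∃ m, n = m + 2 := ⟨n - 2, by omega⟩
    have e1 : 2 * n - 3 = 2 * m + 1 := by omega
    rw [e1, hm]
    obtain ⟨t, ht⟩ : ∃ t, t = e / (x - α) := ⟨_, rfl⟩
    rw [← ht] at h1 h2 ht0 ⊢
    obtain ⟨y, hyd⟩ : ∃ y, y = x - α := ⟨_, rfl⟩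
    rw [← hyd] at ht hy ⊢
    have het : e = t * y := by
      rw [ht]
      field_simp
    have h3 : F.eval x * (e ^ 3 / κ) ^ 2 = f.eval t * y ^ 6 := by
      have h4 : F.eval x * t ^ 6 = κ ^ 2 * f.eval t := h1
      rw [het]
      field_simp
      linear_combination h4
    have h5 : y ^ (m + 2) = y ^ m * y ^ 2 := pow_add y m 2
    have h6 : y ^ (2 * m + 1) = y ^ m * y ^ m * y := by
      rw [pow_succ, two_mul, pow_add]
    rw [h5, h6]
    linear_combination (y ^ m * y ^ m * y * eval t V) ^ 2 * h3 + (y ^ m * y ^ 2) ^ 4 * h2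

end

end Pool.Agent.COV.H66
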